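import Pool.Agent.helper33.NO.Flip
import Pool.Agent.helper83.Bis.SpreadFam
import Pool.Agent.helper79.NO.NearStrong
import Pool.Agent.helper64.NO.D
import Pool.Agent.helper55.NO.Num

set_option autoImplicit false

/-!
# Near-balanced partitions: exact balance unless strongly polarized (relation form)
-/

namespace Pool.Agent.helper33.NO

open Finset Pool.Agent.helper2.Bis

theorem core_no {V : Type} [Fintype V] [DecidableEq V] (R : V → V → Prop)
    (hsymm : ∀ u v, R u v → R v u) (hirr : ∀ u, ¬ R u u) (k m r : ℕ) (s : ℝ)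
    (hs : s = m - 2 * k) (h2k : 2 * k < m)
    (hC : 2 ^ 30 * ((r : ℝ) + 1) * m ^ 2 ≤ s ^ 3) (hn : m ^ 3 ≤ Fintype.card V)
    (w : Fin r → V → ℝ) (hw : ∀ i v, |w i v| ≤ 1)
    (hdeg : ∀ v, m ≤ dg R v) (hmin : ∀ u v, R u v → dg R u = m ∨ dg R v = m)
    (J : ℝ) (hJ : J = 1 ∨ J = -1) :
    ∃ z : V → ℝ, (∀ v, z v = 1 ∨ z v = -1) ∧
      (∀ i, |∑ v, w i v * z v| ≤
        2 ^ 30 * (r + 1) * m * (Fintype.card V : ℝ) / s ^ 2) ∧
      (∀ v, k ≤ ((nb R v).filter (fun u => J * z v * z u = 1)).card) ∧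
      (|∑ v, z v| ≤ 1 ∨
        (0 ≤ ∑ v, z v ∧
          ∑ v, z v ≤ 2 ^ 30 * (r + 1) * m * (Fintype.card V : ℝ) / s ^ 2 ∧
          ((univ.filter (fun v => z v = 1 ∧
            J * z v * ∑ u ∈ nb R v, z u ≤ 7 * s / 8)).card : ℝ) ≤
            2 ^ 30 * (r + 1) * m ^ 2 / s ^ 3 * Fintype.card V ∧
          s / 4 * Fintype.card V < ∑ v, J * z v * ∑ u ∈ nb R v, z u)) := by
  classical
  set n : ℝ := (Fintype.card V : ℝ) with hndef
  obtain ⟨a, j, ha1, han, har, ha16, hj, hγ, hγj, hP, hm16⟩ :=
    Pool.Agent.helper55.NO.num_no k m r (Fintype.card V) s hs h2k hC hn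
  rw [← hndef] at hγ hγj
  have hmR : (16 : ℝ) ≤ m := by exact_mod_cast hm16
  have hm0 : (0 : ℝ) < m := by linarith
  have hs0 : 0 < s := by
    have : (2 * k : ℝ) < m := by exact_mod_cast h2k
    rw [hs]
    linarith
  have hsm : s ≤ m := by
    rw [hs]
    have : (0 : ℝ) ≤ k := Nat.cast_nonneg _
    linarith
  have hn0 : 0 ≤ n := Nat.cast_nonneg _
  have hr0 : (0 : ℝ) ≤ r := Nat.cast_nonneg _
  have ha1R : (1 : ℝ) ≤ a := by exact_mod_cast ha1
  -- the weights
  set w' : Fin (r + 1) → V → ℝ := Fin.cons (fun _ => 1) w with hw'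
  have hw'0 : w' 0 = fun _ => 1 := rfl
  have hw's : ∀ i : Fin r, w' i.succ = w i := fun i => rfl
  have hw'1 : ∀ i v, |w' i v| ≤ 1 := by
    intro i v
    refine Fin.cases ?_ (fun i => ?_) i
    · rw [hw'0]; simp
    · rw [hw's]; exact hw i v
  obtain ⟨z1, hz1, hz1w, hz1s⟩ := Pool.Agent.helper79.NO.near_strong R hsymm hirr m a a (r + 1) ha1 ha1 (by omega)
    (by exact_mod_cast han) (by exact_mod_cast har) w' hw'1 hdeg hmin J hJ
  set γ : ℝ := 2 * (r + 1) * m * n / (a * a) + (a - 1 + 2 * (r + 1)) with hγdef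
  have hz1w' : ∀ i, |∑ v, w' i v * z1 v| ≤ γ := by
    intro i
    have := hz1w i
    push_cast at this
    exact this
  set σ : ℝ := 2 * (a : ℝ) + a - 2 with hσ
  have hσ0 : 0 ≤ σ := by rw [hσ]; linarith
  have hσs : σ ≤ 3 * s / 16 := by rw [hσ]; linarith
  -- orientation
  obtain ⟨z, hz, hzw, hzs, hzpos⟩ : ∃ z : V → ℝ, (∀ v, z v = 1 ∨ z v = -1) ∧
      (∀ i, |∑ v, w' i v * z v| ≤ γ) ∧ (∀ u, -σ ≤ J * z u * ∑ v ∈ nb R u, z v) ∧
      0 ≤ ∑ v, z v := by
    rcases le_total 0 (∑ v, z1 v) with h | h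
    · exact ⟨z1, hz1, hz1w', hz1s, h⟩
    · refine ⟨fun v => - z1 v, fun v => ?_, fun i => ?_, fun u => ?_, ?_⟩
      · rcases hz1 v with h' | h'
        · right
          show -z1 v = -1
          rw [h']
        · left
          show -z1 v = 1
          rw [h']
          norm_num
      · have : ∑ v, w' i v * - z1 v = - ∑ v, w' i v * z1 v := by
          rw [← Finset.sum_neg_distrib]
          exact Finset.sum_congr rfl fun v _ => by ring
        rw [this, abs_neg]
        exact hz1w' i
      · have : J * - z1 u * ∑ v ∈ nb R u, - z1 v = J * z1 u * ∑ v ∈ nb R u, z1 v := by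
          rw [Finset.sum_neg_distrib]
          ring
        rw [this]
        exact hz1s u
      · rw [Finset.sum_neg_distrib]
        linarith
  have hzsum : ∑ v, z v ≤ γ := by
    have h1 := hzw 0
    rw [hw'0] at h1
    simp only [one_mul] at h1
    exact (le_abs_self _).trans h1
  -- the hubs
  set D : ℕ := m ^ 3 with hD
  set H : Finset V := univ.filter (fun v => D < dg R v) with hH
  have hHc : D * H.card ≤ m * Fintype.card V :=
    Pool.Agent.helper64.NO.hubs_le R hsymm hirr m hmin D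
      (by rw [hD]; exact Nat.le_self_pow (by norm_num) m)
  have hmemH : ∀ v, v ∈ H ↔ D < dg R v := fun v => by simp [hH]
  set c : ℝ := s / (16 * m) with hc
  have hc0 : 0 < c := by rw [hc]; positivity
  have hcm : c * m = s / 16 := by
    rw [hc]
    field_simp
  have hc16 : c ≤ 1 / 16 := by
    rw [hc, div_le_div_iff₀ (by positivity) (by norm_num)]
    linarith
  -- the free vertices
  set A : Finset V := univ.filter (fun v => z v = 1) with hA
  set F : Finset V := univ.filter (fun v => z v = 1 ∧ v ∉ H ∧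
    J * z v * ∑ u ∈ nb R v, z u ≤ dg R v - 2 * k - 2 * c * dg R v) with hF
  -- the number of flips
  obtain ⟨P, hP1, hP2⟩ := Pool.Agent.helper71.Bis.sum_pm (univ : Finset V) z (fun v _ => hz v)
  have hP3 : Fintype.card V ≤ 2 * P := by
    rw [hP2] at hzpos
    have : ((Finset.univ : Finset V).card : ℝ) ≤ 2 * P := by linarith
    have h2 : (Finset.univ : Finset V).card ≤ 2 * P := by exact_mod_cast this
    rwa [Finset.card_univ] at h2
  set N : ℕ := (2 * P - Fintype.card V) / 2 with hN
  have hNsum : ∑ v, z v - 2 * N * 1 = 0 ∨ ∑ v, z v - 2 * N * 1 = 1 := by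
    rw [hP2, Finset.card_univ]
    have h1 : 2 * N = 2 * P - Fintype.card V ∨ 2 * N + 1 = 2 * P - Fintype.card V := by omega
    rcases h1 with h1 | h1
    · left
      have h2 : 2 * N + Fintype.card V = 2 * P := by omega
      have h3 : (2 * N + Fintype.card V : ℝ) = 2 * P := by exact_mod_cast h2
      linarith
    · right
      have h2 : 2 * N + 1 + Fintype.card V = 2 * P := by omega
      have h3 : (2 * N + 1 + Fintype.card V : ℝ) = 2 * P := by exact_mod_cast h2
      linarith
  have hNγ : 2 * (N : ℝ) ≤ γ := by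
    rcases hNsum with h | h <;> linarith
  have hmul : (1 : ℝ) ≤ 2 ^ j := one_le_pow₀ (by norm_num)
  have hs3 : 0 < s ^ 3 := by positivity
  have hbase : 0 ≤ (r + 1) * (m : ℝ) ^ 2 / s ^ 3 * n := by positivity
  by_cases hcase : N * 2 ^ j ≤ F.card
  · -- flip
    have hYex : ∀ h : V, ∃ Y : Finset V, h ∈ H → (Y ⊆ nb R h ∧ (∀ u ∈ Y, J * z h * z u = 1) ∧
        Y.card = m) := by
      intro h
      by_cases hh : h ∈ H
      · have h1 : m ≤ ((nb R h).filter (fun u => J * z h * z u = 1)).card := by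
          have hJz : J * z h = 1 ∨ J * z h = -1 := by
            rcases hJ with rfl | rfl <;> rcases hz h with h' | h' <;> rw [h'] <;> norm_num
          have h2 := Pool.Agent.helper71.Bis.card_good (nb R h) z (J * z h) hJz hz
          have h3 : ∑ u ∈ nb R h, (1 + J * z h * z u) / 2 =
              (dg R h : ℝ) / 2 + (J * z h * ∑ u ∈ nb R h, z u) / 2 := by
            have : ∀ u ∈ nb R h, (1 + J * z h * z u) / 2 = 1 / 2 + (J * z h / 2) * z u :=
              fun u _ => by ring
            rw [Finset.sum_congr rfl this, Finset.sum_add_distrib, ← Finset.mul_sum,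
              Finset.sum_const, nsmul_eq_mul]
            unfold dg
            ring
          rw [h3] at h2
          have h4 := hzs h
          have h5 : ((D : ℕ) : ℝ) ≤ dg R h := by exact_mod_cast ((hmemH h).1 hh).le
          have h6 : ((D : ℕ) : ℝ) = (m : ℝ) ^ 3 := by rw [hD]; push_cast; ring
          have h7 : 4 * (m : ℝ) ≤ (m : ℝ) ^ 3 := by nlinarith
          have h8 : (m : ℝ) ≤ (((nb R h).filter (fun u => J * z h * z u = 1)).card : ℝ) := by
            rw [h2]
            linarith
          exact_mod_cast h8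
        obtain ⟨Y, hY1, hY2⟩ := Finset.exists_subset_card_eq h1
        exact ⟨Y, fun _ => ⟨hY1.trans (Finset.filter_subset _ _),
          fun u hu => (Finset.mem_filter.1 (hY1 hu)).2, hY2⟩⟩
      · exact ⟨∅, fun h' => absurd h' hh⟩
    choose Y hY using hYex
    obtain ⟨K, hKF, hKc, hKs, hKY⟩ := Pool.Agent.helper83.Bis.spread_fam R hsymm H m D (c / 4)
      (by linarith) (by linarith)
      hdeg (fun v hv => by
        by_contra h
        exact hv ((hmemH v).2 (by omega)))
      (by
        have e1 : c / 4 = s / (64 * m) := by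
          rw [hc]
          field_simp
          norm_num
        have e2 : ((D : ℕ) : ℝ) = (m : ℝ) ^ 3 := by rw [hD]; push_cast; ring
        rw [e1, e2]
        refine le_trans ?_ hP
        apply mul_le_mul_of_nonneg_left _ (by positivity)
        have e3 : (0 : ℝ) ≤ ((m : ℝ) ^ 3) ^ 2 := by positivity
        linarith)
      Y (fun h hh => ⟨(hY h hh).1, (hY h hh).2.2.ge, by
        rw [(hY h hh).2.2, hD]
        exact Nat.le_self_pow (by norm_num) m⟩)
      F (fun v hv => (Finset.mem_filter.1 hv).2.2.1) j N hcase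
    have hjc : (1 / 2 ^ j : ℝ) + 2 * (c / 4) ≤ c := by
      have e1 : (1 / 2 ^ j : ℝ) ≤ c / 2 := by
        rw [one_div_pow] at hj
        refine hj.trans (le_of_eq ?_)
        rw [hc]
        field_simp
        norm_num
      linarith
    obtain ⟨e, he1, he2, he3, he4, he5⟩ := flip_exact R H J hJ m k N c σ hc0.le (by linarith) hdeg
      z hz hzs 1 (by
        rcases hNsum with h | h <;> rw [h] <;> norm_num)
      K hKc (fun v hv => (Finset.mem_filter.1 (hKF hv)).2.2.1)
      (fun v hv => (Finset.mem_filter.1 (hKF hv)).2.1)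
      (fun v hv => (Finset.mem_filter.1 (hKF hv)).2.2.2)
      (fun v hv => (hKs v hv).trans (mul_le_mul_of_nonneg_right hjc (Nat.cast_nonneg _)))
      Y (fun h hh => by
        refine ⟨(hY h hh).1, (hY h hh).2.1, ?_⟩
        have h1 := (hKY h hh).trans (mul_le_mul_of_nonneg_right hjc (Nat.cast_nonneg _))
        rw [(hY h hh).2.2, hcm] at h1
        rw [(hY h hh).2.2]
        have h2 : (k : ℝ) + ((Y h ∩ K).card : ℝ) ≤ m := by
          have h3 : (k : ℝ) = (m - s) / 2 := by rw [hs]; ring
          rw [h3]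
          linarith
        exact_mod_cast h2)
      (by
        have h3 : 2 * (k : ℝ) = m - s := by rw [hs]; ring
        have h4 : (1 - 2 * c) * (m : ℝ) = m - 2 * (c * m) := by ring
        rw [h3, h4, hcm]
        linarith)
    refine ⟨e, he1, fun i => ?_, he3, Or.inl he2⟩
    have h1 := hzw i.succ
    rw [hw's] at h1
    have h2 : |∑ v, w i v * e v - ∑ v, w i v * z v| ≤ 2 * N := by
      rw [← Finset.sum_sub_distrib]
      refine (Finset.abs_sum_le_sum_abs _ _).trans ?_
      have e1 : ∀ v ∈ (univ : Finset V), |w i v * e v - w i v * z v| ≤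
          if v ∈ K then (2 : ℝ) else 0 := by
        intro v _
        split_ifs with h
        · rw [he5 v h]
          have e2 : w i v * -z v - w i v * z v = w i v * (-2 * z v) := by ring
          rw [e2, abs_mul]
          have e3 : |(-2 : ℝ) * z v| = 2 := by
            rcases hz v with h' | h' <;> rw [h'] <;> norm_num
          rw [e3]
          have := hw i v
          linarith
        · rw [he4 v h, sub_self, abs_zero]
      refine (Finset.sum_le_sum e1).trans ?_
      rw [Finset.sum_ite_mem, Finset.univ_inter, Finset.sum_const, nsmul_eq_mul, hKc]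
      linarith
    have h3 : |∑ v, w i v * e v| ≤ γ + 2 * N := by
      have h4 := abs_add_le (∑ v, w i v * e v - ∑ v, w i v * z v) (∑ v, w i v * z v)
      rw [sub_add_cancel] at h4
      linarith
    have h5 : 0 ≤ (r + 1) * (m : ℝ) * n / s ^ 2 := by positivity
    have h6 : 2 ^ 12 * (r + 1) * (m : ℝ) * n / s ^ 2 = 2 ^ 12 * ((r + 1) * (m : ℝ) * n / s ^ 2) := by
      ring
    have h7 : 2 ^ 30 * (r + 1) * (m : ℝ) * n / s ^ 2 = 2 ^ 30 * ((r + 1) * (m : ℝ) * n / s ^ 2) := by
      ring
    rw [h6] at hγ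
    rw [h7]
    linarith
  · -- polarized
    rw [not_le] at hcase
    have hcaseR : (F.card : ℝ) < N * 2 ^ j := by exact_mod_cast hcase
    have hFc : (F.card : ℝ) ≤ 2 ^ 17 * ((r + 1) * (m : ℝ) ^ 2 / s ^ 3 * n) := by
      have h1 : 2 * (N : ℝ) * 2 ^ j ≤ 2 ^ j * γ := by
        rw [mul_comm (2 ^ j : ℝ) γ]
        exact mul_le_mul_of_nonneg_right hNγ (by positivity)
      have h2 : 2 ^ 18 * (r + 1) * (m : ℝ) ^ 2 / s ^ 3 * n =
          2 ^ 18 * ((r + 1) * (m : ℝ) ^ 2 / s ^ 3 * n) := by ring
      rw [h2] at hγj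
      linarith
    have hHcR : (H.card : ℝ) ≤ (r + 1) * (m : ℝ) ^ 2 / s ^ 3 * n := by
      have h1 : (m : ℝ) ^ 3 * H.card ≤ m * n := by
        have : ((D * H.card : ℕ) : ℝ) ≤ ((m * Fintype.card V : ℕ) : ℝ) := by exact_mod_cast hHc
        rw [hD] at this
        push_cast at this
        exact this
      have h2 : (m : ℝ) ^ 3 * H.card ≤ (m : ℝ) ^ 3 * ((r + 1) * (m : ℝ) ^ 2 / s ^ 3 * n) := by
        refine h1.trans ?_
        have h3 : (m : ℝ) ^ 3 * ((r + 1) * (m : ℝ) ^ 2 / s ^ 3 * n) =
            (m * n) * ((r + 1) * (m : ℝ) ^ 4 / s ^ 3) := by ring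
        rw [h3]
        have h4 : 1 ≤ (r + 1) * (m : ℝ) ^ 4 / s ^ 3 := by
          rw [le_div_iff₀ hs3, one_mul]
          have h5 : s ^ 3 ≤ (m : ℝ) ^ 3 := pow_le_pow_left₀ hs0.le hsm 3
          have h6 : (m : ℝ) ^ 3 ≤ (m : ℝ) ^ 4 := pow_le_pow_right₀ (by linarith) (by norm_num)
          have h7 : (1 : ℝ) * (m : ℝ) ^ 4 ≤ (r + 1) * (m : ℝ) ^ 4 :=
            mul_le_mul_of_nonneg_right (by linarith) (by positivity)
          linarith
        exact le_mul_of_one_le_right (by positivity) h4
      exact le_of_mul_le_mul_left h2 (by positivity)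
    have hsmall : 2 ^ 30 * ((r + 1) * (m : ℝ) ^ 2 / s ^ 3 * n) ≤ n := by
      have h1 : 2 ^ 30 * ((r + 1) * (m : ℝ) ^ 2) / s ^ 3 ≤ 1 := by
        rw [div_le_one hs3]
        linarith
      calc 2 ^ 30 * ((r + 1) * (m : ℝ) ^ 2 / s ^ 3 * n) =
          (2 ^ 30 * ((r + 1) * (m : ℝ) ^ 2) / s ^ 3) * n := by ring
        _ ≤ 1 * n := mul_le_mul_of_nonneg_right h1 hn0
        _ = n := one_mul n
    have hnofree : ∀ v ∈ A, v ∉ H → v ∉ F → 7 * s / 8 < J * z v * ∑ u ∈ nb R v, z u := by
      intro v hvA hvH hvF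
      have hv1 : z v = 1 := (Finset.mem_filter.1 hvA).2
      have h1 : (dg R v : ℝ) - 2 * k - 2 * c * dg R v < J * z v * ∑ u ∈ nb R v, z u := by
        by_contra h
        exact hvF (Finset.mem_filter.2 ⟨Finset.mem_univ _, hv1, hvH, not_lt.1 h⟩)
      refine lt_of_le_of_lt ?_ h1
      have hd : (m : ℝ) ≤ dg R v := by exact_mod_cast hdeg v
      have h2 : (1 - 2 * c) * (m : ℝ) ≤ (1 - 2 * c) * dg R v :=
        mul_le_mul_of_nonneg_left hd (by linarith)
      have h3 : 2 * (k : ℝ) = m - s := by rw [hs]; ring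
      have h4 : (1 - 2 * c) * (m : ℝ) = m - 2 * (c * m) := by ring
      rw [h4, hcm] at h2
      linarith
    refine ⟨z, hz, fun i => ?_, fun v => ?_, Or.inr ⟨hzpos, ?_, ?_, ?_⟩⟩
    · have h1 := hzw i.succ
      rw [hw's] at h1
      have h5 : 0 ≤ (r + 1) * (m : ℝ) * n / s ^ 2 := by positivity
      have h6 : 2 ^ 12 * (r + 1) * (m : ℝ) * n / s ^ 2 =
          2 ^ 12 * ((r + 1) * (m : ℝ) * n / s ^ 2) := by ring
      have h7 : 2 ^ 30 * (r + 1) * (m : ℝ) * n / s ^ 2 =
          2 ^ 30 * ((r + 1) * (m : ℝ) * n / s ^ 2) := by ring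
      rw [h6] at hγ
      rw [h7]
      linarith
    · have hJz : J * z v = 1 ∨ J * z v = -1 := by
        rcases hJ with rfl | rfl <;> rcases hz v with h' | h' <;> rw [h'] <;> norm_num
      have h2 := Pool.Agent.helper71.Bis.card_good (nb R v) z (J * z v) hJz hz
      have h3 : ∑ u ∈ nb R v, (1 + J * z v * z u) / 2 =
          (dg R v : ℝ) / 2 + (J * z v * ∑ u ∈ nb R v, z u) / 2 := by
        have : ∀ u ∈ nb R v, (1 + J * z v * z u) / 2 = 1 / 2 + (J * z v / 2) * z u :=
          fun u _ => by ring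
        rw [Finset.sum_congr rfl this, Finset.sum_add_distrib, ← Finset.mul_sum,
          Finset.sum_const, nsmul_eq_mul]
        unfold dg
        ring
      rw [h3] at h2
      have h4 := hzs v
      have hd : (m : ℝ) ≤ dg R v := by exact_mod_cast hdeg v
      have h5 : 2 * (k : ℝ) = m - s := by rw [hs]; ring
      have h8 : (k : ℝ) ≤ (((nb R v).filter (fun u => J * z v * z u = 1)).card : ℝ) := by
        rw [h2]
        linarith
      exact_mod_cast h8
    · have h5 : 0 ≤ (r + 1) * (m : ℝ) * n / s ^ 2 := by positivity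
      have h6 : 2 ^ 12 * (r + 1) * (m : ℝ) * n / s ^ 2 =
          2 ^ 12 * ((r + 1) * (m : ℝ) * n / s ^ 2) := by ring
      have h7 : 2 ^ 30 * (r + 1) * (m : ℝ) * n / s ^ 2 =
          2 ^ 30 * ((r + 1) * (m : ℝ) * n / s ^ 2) := by ring
      rw [h6] at hγ
      rw [h7]
      linarith
    · have h1 : univ.filter (fun v => z v = 1 ∧ J * z v * ∑ u ∈ nb R v, z u ≤ 7 * s / 8) ⊆
          F ∪ H := by
        intro v hv
        have hv' := (Finset.mem_filter.1 hv).2
        by_contra h
        rw [Finset.mem_union, not_or] at h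
        have := hnofree v (Finset.mem_filter.2 ⟨Finset.mem_univ _, hv'.1⟩) h.2 h.1
        linarith [hv'.2]
      have h2 := (Finset.card_le_card h1).trans (Finset.card_union_le F H)
      have h3 : ((univ.filter (fun v => z v = 1 ∧
          J * z v * ∑ u ∈ nb R v, z u ≤ 7 * s / 8)).card : ℝ) ≤ F.card + H.card := by
        exact_mod_cast h2
      have h4 : 2 ^ 30 * (r + 1) * (m : ℝ) ^ 2 / s ^ 3 * n =
          2 ^ 30 * ((r + 1) * (m : ℝ) ^ 2 / s ^ 3 * n) := by ring
      rw [h4]
      linarith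
    · have hAc : n ≤ 2 * (A.card : ℝ) := by
        have h1 : ∑ v, z v = 2 * (A.card : ℝ) - n := by
          have h2 : ∀ v, z v = 2 * (if z v = 1 then 1 else 0) - 1 := by
            intro v
            rcases hz v with h | h
            · rw [h]; norm_num
            · rw [h]; norm_num
          rw [Finset.sum_congr rfl (fun v _ => h2 v), Finset.sum_sub_distrib, ← Finset.mul_sum,
            Finset.sum_boole, Finset.sum_const, Finset.card_univ, nsmul_eq_mul, mul_one]
        linarith
      have h1 := many_free R J z σ (7 * s / 8) (∑ v, J * z v * ∑ u ∈ nb R v, z u) hσ0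
        (by linarith) hzs (le_refl _) A F H hAc (by
          intro v hv
          exact Finset.mem_filter.2 ⟨Finset.mem_univ _, (Finset.mem_filter.1 hv).2.1⟩)
        (fun v h1 h2 h3 => (hnofree v h1 h2 h3).le)
      have h2 : (7 * s / 8 + σ) * ((F.card : ℝ) + H.card) ≤ (17 / 16 * s) * (n / 2 ^ 12) := by
        apply mul_le_mul
        · linarith
        · linarith
        · positivity
        · positivity
      have hsn : 0 < s * n := by
        have : (0 : ℝ) < n := by
          have h3 : m ^ 3 ≤ Fintype.card V := hn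
          have h0 : 0 < m := by exact_mod_cast hm0
          have h4 : 0 < m ^ 3 := pow_pos h0 3
          have h5 : 0 < Fintype.card V := by omega
          rw [hndef]
          exact_mod_cast h5
        positivity
      have h3 : σ * n / 2 ≤ 3 * s / 16 * n / 2 := by
        have := mul_le_mul_of_nonneg_right hσs hn0
        linarith
      rw [← hndef] at h1
      have h4 : (17 / 16 * s) * (n / 2 ^ 12) = 17 / 16 / 2 ^ 12 * (s * n) := by ring
      have h5 : n * (7 * s / 8) / 2 = 7 / 16 * (s * n) := by ring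
      have h6 : 3 * s / 16 * n / 2 = 3 / 32 * (s * n) := by ring
      have h7 : s / 4 * n = 1 / 4 * (s * n) := by ring
      rw [h4] at h2
      rw [h5] at h1
      rw [h6] at h3
      rw [h7]
      nlinarith

end Pool.Agent.helper33.NO
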