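import Pool.Agent.helper33.NO.Core

set_option autoImplicit false

/-!
# Near-balanced partitions: exact balance unless strongly polarized (relation form, all cases)
-/

namespace Pool.Agent.helper33.NO

open Finset Pool.Agent.helper2.Bis

/-- number of good neighbours and the field -/
theorem good_of_stable {V : Type} [Fintype V] [DecidableEq V] (R : V → V → Prop) (k : ℕ)
    (σ : ℝ) (z : V → ℝ) (hz : ∀ v, z v = 1 ∨ z v = -1) (J : ℝ) (hJ : J = 1 ∨ J = -1) (v : V)
    (hst : -σ ≤ J * z v * ∑ u ∈ nb R v, z u) (hk : 2 * (k : ℝ) + σ ≤ dg R v) :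
    k ≤ ((nb R v).filter (fun u => J * z v * z u = 1)).card := by
  have hJz : J * z v = 1 ∨ J * z v = -1 := by
    rcases hJ with rfl | rfl <;> rcases hz v with h' | h' <;> rw [h'] <;> norm_num
  have h2 := Pool.Agent.helper71.Bis.card_good (nb R v) z (J * z v) hJz hz
  have h3 : ∑ u ∈ nb R v, (1 + J * z v * z u) / 2 =
      (dg R v : ℝ) / 2 + (J * z v * ∑ u ∈ nb R v, z u) / 2 := by
    have : ∀ u ∈ nb R v, (1 + J * z v * z u) / 2 = 1 / 2 + (J * z v / 2) * z u :=
      fun u _ => by ring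
    rw [Finset.sum_congr rfl this, Finset.sum_add_distrib, ← Finset.mul_sum,
      Finset.sum_const, nsmul_eq_mul]
    unfold dg
    ring
  rw [h3] at h2
  have h8 : (k : ℝ) ≤ (((nb R v).filter (fun u => J * z v * z u = 1)).card : ℝ) := by
    rw [h2]
    linarith
  exact_mod_cast h8

/-- near-balanced partitions without any condition on the number of vertices -/
theorem core_near {V : Type} [Fintype V] [DecidableEq V] (R : V → V → Prop)
    (hsymm : ∀ u v, R u v → R v u) (hirr : ∀ u, ¬ R u u) (k m r : ℕ) (s : ℝ)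
    (hs : s = m - 2 * k) (hs32 : 32 ≤ s)
    (w : Fin r → V → ℝ) (hw : ∀ i v, |w i v| ≤ 1)
    (hdeg : ∀ v, m ≤ dg R v) (hmin : ∀ u v, R u v → dg R u = m ∨ dg R v = m)
    (J : ℝ) (hJ : J = 1 ∨ J = -1) :
    ∃ z : V → ℝ, (∀ v, z v = 1 ∨ z v = -1) ∧
      (∀ i, |∑ v, w i v * z v| ≤
        2 ^ 30 * (r + 1) * (m * (Fintype.card V : ℝ) / s ^ 2 + s)) ∧
      |∑ v, z v| ≤ 2 ^ 30 * (r + 1) * (m * (Fintype.card V : ℝ) / s ^ 2 + s) ∧
      (∀ v, k ≤ ((nb R v).filter (fun u => J * z v * z u = 1)).card) := by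
  classical
  set n : ℝ := (Fintype.card V : ℝ) with hndef
  have hs0 : 0 < s := by linarith
  have hr0 : (0 : ℝ) ≤ r := Nat.cast_nonneg _
  have hn0 : 0 ≤ n := Nat.cast_nonneg _
  have hm0 : (0 : ℝ) ≤ m := Nat.cast_nonneg _
  set T : ℝ := m * n / s ^ 2 with hT
  have hT0 : 0 ≤ T := by positivity
  rcases isEmpty_or_nonempty V with hV | ⟨⟨v0⟩⟩
  · refine ⟨fun _ => 1, fun _ => Or.inl rfl, fun i => ?_, ?_, fun v => (hV.false v).elim⟩
    · rw [Finset.univ_eq_empty, Finset.sum_empty, abs_zero]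
      positivity
    · rw [Finset.univ_eq_empty, Finset.sum_empty, abs_zero]
      positivity
  have hsm : s ≤ m := by
    rw [hs]
    have : (0 : ℝ) ≤ k := Nat.cast_nonneg _
    linarith
  have hnm : m + 1 ≤ Fintype.card V := by
    have h1 := hdeg v0
    have h2 : (insert v0 (nb R v0)).card ≤ Fintype.card V := Finset.card_le_univ _
    rw [Finset.card_insert_of_notMem (fun h => hirr v0 (mem_nb.mp h))] at h2
    unfold dg at h1
    omega
  set a : ℕ := ⌊s / 16⌋₊ with ha
  have ha16 : 16 * (a : ℝ) ≤ s := by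
    have := Nat.floor_le (a := s / 16) (by positivity)
    rw [← ha] at this
    linarith
  have ha32 : s ≤ 32 * a := by
    have := Nat.lt_floor_add_one (s / 16)
    rw [← ha] at this
    have h2 : 32 / 16 < (a : ℝ) + 1 := by
      refine lt_of_le_of_lt ?_ this
      linarith
    have h3 : (1 : ℝ) < a := by linarith
    linarith
  have ha1R : (1 : ℝ) ≤ a := by linarith
  have ha1 : 1 ≤ a := by exact_mod_cast ha1R
  have ham : 16 * a ≤ m := by
    have : (16 * a : ℝ) ≤ m := by linarith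
    exact_mod_cast this
  have hnR : (m : ℝ) + 1 ≤ n := by
    rw [hndef]
    exact_mod_cast hnm
  have hd : ∀ v, (m : ℝ) ≤ dg R v := fun v => by exact_mod_cast hdeg v
  by_cases har : a + (r + 1) ≤ Fintype.card V + 1
  · set w' : Fin (r + 1) → V → ℝ := Fin.cons (fun _ => 1) w with hw'
    have hw'0 : w' 0 = fun _ => 1 := rfl
    have hw's : ∀ i : Fin r, w' i.succ = w i := fun i => rfl
    have hw'1 : ∀ i v, |w' i v| ≤ 1 := by
      intro i v
      refine Fin.cases ?_ (fun i => ?_) i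
      · rw [hw'0]; simp
      · rw [hw's]; exact hw i v
    obtain ⟨z, hz, hzw, hzs⟩ := Pool.Agent.helper79.NO.near_strong R hsymm hirr m a a (r + 1)
      ha1 ha1 (by omega) (by omega) har w' hw'1 hdeg hmin J hJ
    have hγ : ∀ i, |∑ v, w' i v * z v| ≤ 2 ^ 30 * (r + 1) * (T + s) := by
      intro i
      refine (hzw i).trans ?_
      push_cast
      rw [← hndef]
      have h1 : 2 * ((r : ℝ) + 1) * m * n / (a * a) ≤ 2 ^ 12 * (r + 1) * T := by
        rw [div_le_iff₀ (by positivity)]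
        have h2 : s ^ 2 ≤ (32 * a) ^ 2 := pow_le_pow_left₀ hs0.le ha32 2
        have h3 : T * s ^ 2 = m * n := by
          rw [hT]
          field_simp
        have h4 : T * s ^ 2 ≤ T * (32 * a) ^ 2 := mul_le_mul_of_nonneg_left h2 hT0
        have h5 : ((r : ℝ) + 1) * (m * n) ≤ (r + 1) * (T * (32 * a) ^ 2) := by
          rw [← h3]
          exact mul_le_mul_of_nonneg_left h4 (by linarith)
        have h6 : 2 * ((r : ℝ) + 1) * m * n = 2 * ((r + 1) * (m * n)) := by ring
        have h7 : 2 ^ 12 * ((r : ℝ) + 1) * T * (a * a) =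
            4 * ((r + 1) * (T * (32 * a) ^ 2)) := by ring
        have h8 : 0 ≤ ((r : ℝ) + 1) * (T * (32 * a) ^ 2) := by positivity
        rw [h6, h7]
        linarith
      have h6 : 0 ≤ (r : ℝ) * s := by positivity
      have h7 : 0 ≤ ((r : ℝ) + 1) * T := by positivity
      have h8 : (2 : ℝ) ^ 30 * (r + 1) * (T + s) =
          2 ^ 30 * ((r + 1) * T) + 2 ^ 30 * (r * s) + 2 ^ 30 * s := by ring
      have h9 : (r : ℝ) * 32 ≤ r * s := mul_le_mul_of_nonneg_left hs32 hr0
      have h10 : (2 : ℝ) ^ 12 * (r + 1) * T = 2 ^ 12 * ((r + 1) * T) := by ring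
      rw [h10] at h1
      rw [h8]
      linarith
    refine ⟨z, hz, fun i => ?_, ?_, fun v => ?_⟩
    · have := hγ i.succ
      rwa [hw's] at this
    · have := hγ 0
      rw [hw'0] at this
      simpa only [one_mul] using this
    · exact good_of_stable R k (2 * (a : ℝ) + a - 2) z hz J hJ v (hzs v) (by
        have h5 : 2 * (k : ℝ) = m - s := by rw [hs]; ring
        have := hd v
        rw [h5]
        linarith)
  · obtain ⟨z, hz, _, hzs⟩ := Pool.Agent.helper79.NO.near_strong R hsymm hirr m a a 1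
      ha1 ha1 le_rfl (by omega) (by omega) (fun _ _ => 1) (fun _ _ => by simp) hdeg hmin J hJ
    have hbig : n ≤ 2 ^ 30 * (r + 1) * (T + s) := by
      have h1 : (Fintype.card V : ℝ) + 1 < a + (r + 1) := by
        have : Fintype.card V + 1 < a + (r + 1) := not_le.1 har
        exact_mod_cast this
      rw [← hndef] at h1
      have h2 : (a : ℝ) ≤ n / 2 := by linarith
      have h3 : n / 2 ≤ r + 1 := by linarith
      have h4 : n / 2 * 32 ≤ (r + 1) * s := mul_le_mul h3 hs32 (by norm_num) (by linarith)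
      have h7 : 0 ≤ ((r : ℝ) + 1) * T := by positivity
      nlinarith
    have hle : ∀ f : V → ℝ, (∀ v, |f v| ≤ 1) → |∑ v, f v| ≤ n := by
      intro f hf
      refine (Finset.abs_sum_le_sum_abs _ _).trans ?_
      refine (Finset.sum_le_sum fun v _ => hf v).trans ?_
      simp [hndef]
    have hz1 : ∀ v, |z v| = 1 := fun v => by rcases hz v with h | h <;> rw [h] <;> norm_num
    refine ⟨z, hz, fun i => (hle _ fun v => ?_).trans hbig, (hle _ fun v => ?_).trans hbig,
      fun v => ?_⟩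
    · rw [abs_mul, hz1, mul_one]
      exact hw i v
    · rw [hz1]
    · exact good_of_stable R k (2 * (a : ℝ) + a - 2) z hz J hJ v (hzs v) (by
        have h5 : 2 * (k : ℝ) = m - s := by rw [hs]; ring
        have := hd v
        rw [h5]
        linarith)

theorem core_all {V : Type} [Fintype V] [DecidableEq V] (R : V → V → Prop)
    (hsymm : ∀ u v, R u v → R v u) (hirr : ∀ u, ¬ R u u) (k m r : ℕ) (s : ℝ)
    (hs : s = m - 2 * k) (hs32 : 32 ≤ s)
    (w : Fin r → V → ℝ) (hw : ∀ i v, |w i v| ≤ 1)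
    (hdeg : ∀ v, m ≤ dg R v) (hmin : ∀ u v, R u v → dg R u = m ∨ dg R v = m)
    (J : ℝ) (hJ : J = 1 ∨ J = -1) :
    ∃ z : V → ℝ, (∀ v, z v = 1 ∨ z v = -1) ∧
      (∀ i, |∑ v, w i v * z v| ≤
        2 ^ 30 * (r + 1) * (m * (Fintype.card V : ℝ) / s ^ 2 + s)) ∧
      |∑ v, z v| ≤ 2 ^ 30 * (r + 1) * (m * (Fintype.card V : ℝ) / s ^ 2 + s) ∧
      (∀ v, k ≤ ((nb R v).filter (fun u => J * z v * z u = 1)).card) ∧
      (2 ^ 30 * ((r : ℝ) + 1) * m ^ 2 ≤ s ^ 3 → m ^ 3 ≤ Fintype.card V →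
        |∑ v, z v| ≤ 1 ∨
        (0 ≤ ∑ v, z v ∧
          ((univ.filter (fun v => z v = 1 ∧
            J * z v * ∑ u ∈ nb R v, z u ≤ 7 * s / 8)).card : ℝ) ≤
            2 ^ 30 * (r + 1) * m ^ 2 / s ^ 3 * Fintype.card V ∧
          s / 4 * Fintype.card V < ∑ v, J * z v * ∑ u ∈ nb R v, z u)) := by
  classical
  have hs0 : 0 < s := by linarith
  have h2k : 2 * k < m := by
    have : (2 * k : ℝ) < m := by linarith
    exact_mod_cast this
  have hr0 : (0 : ℝ) ≤ r := Nat.cast_nonneg _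
  by_cases hC : 2 ^ 30 * ((r : ℝ) + 1) * m ^ 2 ≤ s ^ 3 ∧ m ^ 3 ≤ Fintype.card V
  · obtain ⟨z, h1, h2, h3, h4⟩ := core_no R hsymm hirr k m r s hs h2k hC.1 hC.2 w hw hdeg hmin J hJ
    have h5 : 2 ^ 30 * (r + 1) * m * (Fintype.card V : ℝ) / s ^ 2 ≤
        2 ^ 30 * (r + 1) * (m * (Fintype.card V : ℝ) / s ^ 2 + s) := by
      have h6 : 0 ≤ 2 ^ 30 * ((r : ℝ) + 1) * s := by positivity
      have h7 : 2 ^ 30 * (r + 1) * m * (Fintype.card V : ℝ) / s ^ 2 =
          2 ^ 30 * (r + 1) * (m * (Fintype.card V : ℝ) / s ^ 2) := by ring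
      rw [h7, mul_add]
      linarith
    refine ⟨z, h1, fun i => (h2 i).trans h5, ?_, h3, fun _ _ => ?_⟩
    · rcases h4 with h4 | h4
      · refine h4.trans ?_
        have h6 : (1 : ℝ) ≤ 2 ^ 30 * ((r : ℝ) + 1) * (m * (Fintype.card V : ℝ) / s ^ 2 + s) := by
          have h7 : 0 ≤ m * (Fintype.card V : ℝ) / s ^ 2 := by positivity
          have h8 : (1 : ℝ) ≤ 2 ^ 30 * ((r : ℝ) + 1) := by nlinarith
          nlinarith
        exact h6
      · rw [abs_of_nonneg h4.1]
        exact h4.2.1.trans h5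
    · rcases h4 with h4 | h4
      · exact Or.inl h4
      · exact Or.inr ⟨h4.1, h4.2.2.1, h4.2.2.2⟩
  · obtain ⟨z, h1, h2, h3, h4⟩ := core_near R hsymm hirr k m r s hs hs32 w hw hdeg hmin J hJ
    exact ⟨z, h1, h2, h3, h4, fun h5 h6 => absurd ⟨h5, h6⟩ hC⟩

end Pool.Agent.helper33.NO
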