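import Pool.Agent.helper71.Bis.Rounding

set_option autoImplicit false

/-!
# Flipping a spread set of free vertices
-/

namespace Pool.Agent.helper33.NO

open Finset Pool.Agent.helper2.Bis Pool.Agent.helper71.Bis

/-- flipping the set `K` -/
theorem flip_exact {V : Type} [Fintype V] [DecidableEq V] (R : V → V → Prop) (H : Finset V)
    (J : ℝ) (hJ : J = 1 ∨ J = -1) (m k N : ℕ) (c σ : ℝ) (hc : 0 ≤ c) (hc4 : c ≤ 1 / 4)
    (hdeg : ∀ v, m ≤ dg R v) (z : V → ℝ) (hz : ∀ v, z v = 1 ∨ z v = -1)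
    (hst : ∀ u, -σ ≤ J * z u * ∑ v ∈ nb R u, z v)
    (τ : ℝ) (hN : |∑ v, z v - 2 * N * τ| ≤ 1)
    (K : Finset V) (hKc : K.card = N) (hKH : ∀ v ∈ K, v ∉ H) (hKz : ∀ v ∈ K, z v = τ)
    (hKf : ∀ v ∈ K, J * z v * ∑ w ∈ nb R v, z w ≤ dg R v - 2 * k - 2 * c * dg R v)
    (hKs : ∀ v, v ∉ H → ((nb R v ∩ K).card : ℝ) ≤ c * dg R v)
    (Y : V → Finset V) (hY : ∀ h ∈ H, Y h ⊆ nb R h ∧ (∀ w ∈ Y h, J * z h * z w = 1) ∧
      k + (Y h ∩ K).card ≤ (Y h).card)
    (hm : 2 * k + σ ≤ (1 - 2 * c) * m) :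
    ∃ e : V → ℝ, (∀ v, e v = 1 ∨ e v = -1) ∧ |∑ v, e v| ≤ 1 ∧
      (∀ v, k ≤ ((nb R v).filter (fun w => J * e v * e w = 1)).card) ∧
      (∀ v, v ∉ K → e v = z v) ∧ (∀ v ∈ K, e v = - z v) := by
  classical
  set e : V → ℝ := fun v => if v ∈ K then - z v else z v with he
  have heK : ∀ v ∈ K, e v = - z v := fun v hv => by simp [he, hv]
  have hen : ∀ v, v ∉ K → e v = z v := fun v hv => by simp [he, hv]
  have hepm : ∀ v, e v = 1 ∨ e v = -1 := by
    intro v
    by_cases h : v ∈ K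
    · rw [heK v h]
      rcases hz v with h' | h' <;> rw [h'] <;> norm_num
    · rw [hen v h]
      exact hz v
  have hJ2 : |J| = 1 := by rcases hJ with rfl | rfl <;> simp
  have hzabs : ∀ v, |z v| = 1 := fun v => by rcases hz v with h | h <;> rw [h] <;> norm_num
  have hdiff : ∀ v, e v = z v - (if v ∈ K then 2 * z v else 0) := by
    intro v
    by_cases h : v ∈ K
    · rw [heK v h, if_pos h]; ring
    · rw [hen v h, if_neg h]; ring
  have hfield : ∀ v, v ∉ H → |∑ w ∈ nb R v, e w - ∑ w ∈ nb R v, z w| ≤ 2 * c * dg R v := by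
    intro v hv
    rw [← Finset.sum_sub_distrib]
    have e1 : ∀ w ∈ nb R v, e w - z w = - (if w ∈ K then 2 * z w else 0) := by
      intro w _
      rw [hdiff w]
      ring
    rw [Finset.sum_congr rfl e1, Finset.sum_neg_distrib, abs_neg, Finset.sum_ite_mem]
    refine (Finset.abs_sum_le_sum_abs _ _).trans ?_
    have e2 : ∀ w ∈ nb R v ∩ K, |2 * z w| ≤ 2 := fun w _ => by
      rw [abs_mul, hzabs w]
      norm_num
    refine (Finset.sum_le_card_nsmul _ _ _ e2).trans ?_
    rw [nsmul_eq_mul]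
    have := hKs v hv
    linarith
  have hcast : ∀ n : ℕ, (k : ℝ) ≤ n → k ≤ n := fun n h => by exact_mod_cast h
  refine ⟨e, hepm, ?_, fun v => ?_, hen, heK⟩
  · have h1 : ∑ v, e v = ∑ v, z v - 2 * N * τ := by
      rw [Finset.sum_congr rfl (fun v _ => hdiff v), Finset.sum_sub_distrib]
      congr 1
      rw [Finset.sum_ite_mem, Finset.univ_inter, ← Finset.mul_sum, Finset.sum_congr rfl hKz,
        Finset.sum_const, hKc, nsmul_eq_mul]
      ring
    rw [h1]
    exact hN
  · have hJe : J * e v = 1 ∨ J * e v = -1 := by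
      rcases hJ with rfl | rfl <;> rcases hepm v with h | h <;> rw [h] <;> norm_num
    by_cases hvH : v ∈ H
    · -- the hubs
      have hvK : v ∉ K := fun h => hKH v h hvH
      obtain ⟨h1, h2, h3⟩ := hY v hvH
      have h4 : Y v \ K ⊆ (nb R v).filter (fun w => J * e v * e w = 1) := by
        intro w hw
        rw [Finset.mem_sdiff] at hw
        refine Finset.mem_filter.2 ⟨h1 hw.1, ?_⟩
        rw [hen v hvK, hen w hw.2]
        exact h2 w hw.1
      have h5 := Finset.card_le_card h4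
      have h6 := Finset.card_sdiff_add_card_inter (Y v) K
      omega
    · apply hcast
      rw [card_good (nb R v) e (J * e v) hJe hepm]
      have h1 : ∑ w ∈ nb R v, (1 + J * e v * e w) / 2 =
          (dg R v : ℝ) / 2 + (J * e v * ∑ w ∈ nb R v, e w) / 2 := by
        have : ∀ w ∈ nb R v, (1 + J * e v * e w) / 2 = 1 / 2 + (J * e v / 2) * e w :=
          fun w _ => by ring
        rw [Finset.sum_congr rfl this, Finset.sum_add_distrib, ← Finset.mul_sum,
          Finset.sum_const, nsmul_eq_mul]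
        unfold dg
        ring
      rw [h1]
      have h2 : |J * z v * (∑ w ∈ nb R v, e w - ∑ w ∈ nb R v, z w)| ≤ 2 * c * dg R v := by
        rw [abs_mul, abs_mul, hJ2, hzabs v, one_mul, one_mul]
        exact hfield v hvH
      have h3 := abs_le.1 h2
      rw [mul_sub] at h3
      have hd : (m : ℝ) ≤ dg R v := by exact_mod_cast hdeg v
      by_cases hvK : v ∈ K
      · have h4 := hKf v hvK
        rw [heK v hvK]
        have h5 : J * -z v * ∑ w ∈ nb R v, e w = -(J * z v * ∑ w ∈ nb R v, e w) := by ring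
        rw [h5]
        linarith [h3.2]
      · have h4 := hst v
        rw [hen v hvK]
        have h5 : (1 - 2 * c) * (m : ℝ) ≤ (1 - 2 * c) * dg R v :=
          mul_le_mul_of_nonneg_left hd (by linarith)
        linarith [h3.1]

/-- the number of free vertices: the vertices of `A` outside `H` which are not in `F` have fields
larger than `t` -/
theorem many_free {V : Type} [Fintype V] [DecidableEq V] (R : V → V → Prop)
    (J : ℝ) (z : V → ℝ) (σ t B : ℝ) (hσ : 0 ≤ σ) (ht : 0 ≤ t)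
    (hst : ∀ u, -σ ≤ J * z u * ∑ v ∈ nb R u, z v)
    (hB : ∑ u, J * z u * ∑ v ∈ nb R u, z v ≤ B)
    (A F H : Finset V) (hA : (Fintype.card V : ℝ) ≤ 2 * A.card) (hFA : F ⊆ A)
    (hF : ∀ v ∈ A, v ∉ H → v ∉ F → t ≤ J * z v * ∑ w ∈ nb R v, z w) :
    (Fintype.card V : ℝ) * t / 2 - B - σ * Fintype.card V / 2 ≤ (t + σ) * (F.card + H.card) := by
  classical
  set g : V → ℝ := fun u => J * z u * ∑ v ∈ nb R u, z v with hg
  have h1 : ∑ u, g u = ∑ u ∈ A, g u + ∑ u ∈ Aᶜ, g u := (Finset.sum_add_sum_compl A g).symm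
  have h2 : -(σ * (Aᶜ.card : ℝ)) ≤ ∑ u ∈ Aᶜ, g u := by
    have := Finset.card_nsmul_le_sum Aᶜ g (-σ) (fun u _ => hst u)
    rw [nsmul_eq_mul] at this
    linarith
  have hAc : ((A.card : ℝ)) + (Aᶜ.card : ℝ) = Fintype.card V := by
    exact_mod_cast Finset.card_add_card_compl A
  -- the part of `A` with large field
  set L : Finset V := (A \ F) \ H with hL
  have h3 : ∑ u ∈ A, g u = ∑ u ∈ L, g u + ∑ u ∈ A \ L, g u := by
    rw [add_comm, Finset.sum_sdiff]
    exact (Finset.sdiff_subset.trans Finset.sdiff_subset)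
  have h4 : t * (L.card : ℝ) ≤ ∑ u ∈ L, g u := by
    have := Finset.card_nsmul_le_sum L g t (fun u hu => by
      have h5 := Finset.mem_sdiff.1 hu
      have h6 := Finset.mem_sdiff.1 h5.1
      exact hF u h6.1 h5.2 h6.2)
    rw [nsmul_eq_mul] at this
    linarith
  have h5 : -(σ * ((A \ L).card : ℝ)) ≤ ∑ u ∈ A \ L, g u := by
    have := Finset.card_nsmul_le_sum (A \ L) g (-σ) (fun u _ => hst u)
    rw [nsmul_eq_mul] at this
    linarith
  have hLA : L ⊆ A := Finset.sdiff_subset.trans Finset.sdiff_subset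
  have h6 : ((A \ L).card : ℝ) + L.card = A.card := by
    exact_mod_cast Finset.card_sdiff_add_card_eq_card hLA
  have h7 : ((A \ L).card : ℝ) ≤ F.card + H.card := by
    have h8 : A \ L ⊆ F ∪ H := by
      intro v hv
      rw [Finset.mem_sdiff] at hv
      by_contra h9
      rw [Finset.mem_union, not_or] at h9
      exact hv.2 (Finset.mem_sdiff.2 ⟨Finset.mem_sdiff.2 ⟨hv.1, h9.1⟩, h9.2⟩)
    have h9 := (Finset.card_le_card h8).trans (Finset.card_union_le F H)
    exact_mod_cast h9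
  have h8 : t * (A.card : ℝ) - (t + σ) * ((A \ L).card : ℝ) ≤ ∑ u ∈ A, g u := by
    have : (L.card : ℝ) = A.card - (A \ L).card := by linarith
    rw [this] at h4
    rw [h3]
    nlinarith
  have h9 : (t + σ) * ((A \ L).card : ℝ) ≤ (t + σ) * (F.card + H.card) :=
    mul_le_mul_of_nonneg_left h7 (by linarith)
  have h10 : σ * (Aᶜ.card : ℝ) ≤ σ * (Fintype.card V / 2) :=
    mul_le_mul_of_nonneg_left (by linarith) hσ
  have h11 : t * (Fintype.card V / 2) ≤ t * (A.card : ℝ) :=
    mul_le_mul_of_nonneg_left (by linarith) ht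
  linarith

end Pool.Agent.helper33.NO
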